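import Pool.Agent.Helper54.FP.Inst

/-!
# FP-11: injectivity of the maps into the big field and the intersection
-/

set_option autoImplicit false

namespace Pool.Agent.Helper54.FP

theorem inter_toLaurent_coeff {k : Type} [Field k] (p : Polynomial k) (n : ℤ) :
    (Polynomial.toLaurent p).coeff n = if 0 ≤ n then p.coeff n.toNat else 0 := by
  induction p using Polynomial.induction_on' with
  | add p q hp hq =>
    rw [map_add, AddMonoidAlgebra.coeff_add, Finsupp.add_apply, hp, hq]
    split_ifs <;> simp
  | monomial m a =>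
    rw [Polynomial.toLaurent_C_mul_T, ← LaurentPolynomial.single_eq_C_mul_T,
      AddMonoidAlgebra.coeff_single, Finsupp.single_apply, Polynomial.coeff_monomial]
    by_cases h : 0 ≤ n
    · rw [if_pos h]
      by_cases h2 : (m : ℤ) = n
      · rw [if_pos h2, if_pos (by omega)]
      · rw [if_neg h2, if_neg (by omega)]
    · rw [if_neg h, if_neg (by omega)]

theorem inter_mulT_coeff {k : Type} [Field k] (f : LaurentPolynomial k) (m n : ℤ) :
    (f * LaurentPolynomial.T m).coeff n = f.coeff (n - m) := by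
  induction f using LaurentPolynomial.induction_on' with
  | add p q hp hq =>
    rw [add_mul, AddMonoidAlgebra.coeff_add, Finsupp.add_apply, hp, hq, AddMonoidAlgebra.coeff_add,
      Finsupp.add_apply]
  | C_mul_T l a =>
    rw [mul_assoc, ← LaurentPolynomial.T_add, ← LaurentPolynomial.single_eq_C_mul_T,
      ← LaurentPolynomial.single_eq_C_mul_T, AddMonoidAlgebra.coeff_single,
      AddMonoidAlgebra.coeff_single, Finsupp.single_apply, Finsupp.single_apply]
    by_cases h : l + m = n
    · rw [if_pos h, if_pos (by omega)]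
    · rw [if_neg h, if_neg (by omega)]

theorem inter_a1_injective (k : Type) [Field k] : Function.Injective (a1 k) :=
  PowerSeries.map_injective _ Polynomial.toLaurent_injective

theorem inter_a2_injective (k : Type) [Field k] : Function.Injective (a2 k) := by
  apply PowerSeries.map_injective
  rw [RingHom.coe_comp]
  exact (LaurentPolynomial.invert (R := k)).injective.comp Polynomial.toLaurent_injective

theorem inter_φ1_algebraMap (k : Type) [Field k] (F : Pk k) :
    φ1 k (algebraMap (Pk k) (R1 k) F) = iA k (a1 k F) :=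
  IsLocalization.Away.lift_eq _ _ _

theorem inter_φ2_algebraMap (k : Type) [Field k] (F : Pk k) :
    φ2 k (algebraMap (Pk k) (R2 k) F) = iA k (a2 k F) :=
  IsLocalization.Away.lift_eq _ _ _

theorem inter_surj1 {k : Type} [Field k] (r : R1 k) : ∃ (n : ℕ) (a : Pk k),
    r * algebraMap (Pk k) (R1 k) (PowerSeries.X ^ n) = algebraMap (Pk k) (R1 k) a := by
  obtain ⟨n, a, h⟩ := IsLocalization.Away.surj (PowerSeries.X : Pk k) r
  exact ⟨n, a, by rw [map_pow]; exact h⟩

theorem inter_surj2 {k : Type} [Field k] (r : R2 k) : ∃ (n : ℕ) (b : Pk k),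
    r * algebraMap (Pk k) (R2 k) ((PowerSeries.X * PowerSeries.C Polynomial.X) ^ n) =
      algebraMap (Pk k) (R2 k) b := by
  obtain ⟨n, a, h⟩ := IsLocalization.Away.surj (PowerSeries.X * PowerSeries.C Polynomial.X : Pk k) r
  exact ⟨n, a, by rw [map_pow]; exact h⟩

theorem φ1_injective (k : Type) [Field k] : Function.Injective (φ1 k) := by
  rw [injective_iff_map_eq_zero]
  intro r hr
  obtain ⟨n, a, h⟩ := inter_surj1 r
  have h1 := congrArg (φ1 k) h
  rw [map_mul, hr, zero_mul, inter_φ1_algebraMap] at h1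
  have h2 : a1 k a = 0 := iA_injective k (h1.symm.trans (map_zero _).symm)
  have h3 : a = 0 := inter_a1_injective k (h2.trans (map_zero _).symm)
  rw [h3, map_zero, map_pow] at h
  exact (mul_eq_zero.1 h).resolve_right (pow_ne_zero n (isUnit_R1_X k).ne_zero)

theorem φ2_injective (k : Type) [Field k] : Function.Injective (φ2 k) := by
  rw [injective_iff_map_eq_zero]
  intro r hr
  obtain ⟨n, a, h⟩ := inter_surj2 r
  have h1 := congrArg (φ2 k) h
  rw [map_mul, hr, zero_mul, inter_φ2_algebraMap] at h1
  have h2 : a2 k a = 0 := iA_injective k (h1.symm.trans (map_zero _).symm)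
  have h3 : a = 0 := inter_a2_injective k (h2.trans (map_zero _).symm)
  rw [h3, map_zero, map_pow, map_mul] at h
  exact (mul_eq_zero.1 h).resolve_right
    (pow_ne_zero n (mul_ne_zero (isUnit_R2 k).1.ne_zero (isUnit_R2 k).2.ne_zero))

theorem inter_c1_algebraMap (k : Type) [Field k] (F : PowerSeries k) :
    c1 k (algebraMap (PowerSeries k) (LaurentSeries k) F) =
      algebraMap (Pk k) (R1 k) (PowerSeries.map Polynomial.C F) :=
  lK_algebraMap _ _ _ _

theorem inter_algebraMap_X (k : Type) [Field k] :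
    algebraMap (PowerSeries k) (LaurentSeries k) PowerSeries.X = HahnSeries.single 1 1 := by
  rw [LaurentSeries.coe_algebraMap, HahnSeries.ofPowerSeries_X]

theorem inter_c1_single (k : Type) [Field k] : c1 k (HahnSeries.single 1 1) = t1 k := by
  rw [← inter_algebraMap_X, inter_c1_algebraMap, PowerSeries.map_X]
  rfl

/-- `R1` as the ring of Laurent series over `k[z]` -/
noncomputable def interE (k : Type) [Field k] : R1 k →+* LaurentSeries (Polynomial k) :=
  IsLocalization.Away.lift (PowerSeries.X : Pk k)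
    (g := algebraMap (Pk k) (LaurentSeries (Polynomial k))) (isUnit_ofX (Polynomial k))

theorem interE_algebraMap (k : Type) [Field k] (F : Pk k) :
    interE k (algebraMap (Pk k) (R1 k) F) = algebraMap (Pk k) (LaurentSeries (Polynomial k)) F :=
  IsLocalization.Away.lift_eq _ _ _

theorem inter_coeff_algebraMap {A : Type} [CommRing A] (F : PowerSeries A) (n : ℤ) :
    (algebraMap (PowerSeries A) (LaurentSeries A) F).coeff n =
      if 0 ≤ n then PowerSeries.coeff n.toNat F else 0 := by
  rw [LaurentSeries.coe_algebraMap, HahnSeries.ofPowerSeries_apply]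
  split_ifs with h
  · obtain ⟨m, rfl⟩ := Int.eq_ofNat_of_zero_le h
    have := HahnSeries.embDomain_coeff (f := (Nat.castOrderEmbedding : ℕ ↪o ℤ))
      (x := HahnSeries.toPowerSeries.symm F) (a := m)
    simpa using this
  · rw [HahnSeries.embDomain_of_notMem_range]
    rintro ⟨m, hm⟩
    apply h
    rw [← hm]
    simp

theorem inter_coeff_E (k : Type) [Field k] (f : LaurentSeries k) (n : ℤ) :
    (interE k (c1 k f)).coeff n = Polynomial.C (f.coeff n) := by
  obtain ⟨⟨F, ⟨_, m, rfl⟩⟩, h⟩ := IsLocalization.surj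
    (Submonoid.powers (PowerSeries.X : PowerSeries k)) f
  simp only at h
  rw [map_pow, inter_algebraMap_X, HahnSeries.single_pow, one_pow] at h
  have h1 := congrArg (fun x => interE k (c1 k x)) h
  simp only [map_mul] at h1
  have h2 : interE k (c1 k (HahnSeries.single (m • (1 : ℤ)) (1 : k))) =
      HahnSeries.single (m • (1 : ℤ)) (1 : Polynomial k) := by
    have h3 : (HahnSeries.single (m • (1 : ℤ)) (1 : k)) =
        algebraMap (PowerSeries k) (LaurentSeries k) (PowerSeries.X ^ m) := by
      rw [map_pow, inter_algebraMap_X, HahnSeries.single_pow, one_pow]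
    rw [h3, inter_c1_algebraMap, interE_algebraMap, map_pow, PowerSeries.map_X, map_pow,
      LaurentSeries.coe_algebraMap, HahnSeries.ofPowerSeries_X, HahnSeries.single_pow, one_pow]
  rw [h2, inter_c1_algebraMap, interE_algebraMap] at h1
  have h4 := congrArg (fun x => x.coeff (n + m)) h
  have h5 := congrArg (fun x => x.coeff (n + m)) h1
  simp only [inter_coeff_algebraMap] at h4 h5
  have hm : m • (1 : ℤ) = m := by simp
  rw [hm] at h4 h5
  rw [HahnSeries.coeff_mul_single_add, mul_one] at h4 h5
  rw [h5, h4]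
  split_ifs
  · rw [PowerSeries.coeff_map]
  · simp

theorem inter_E_z1 (k : Type) [Field k] : interE k (z1 k) = HahnSeries.C Polynomial.X := by
  rw [z1, interE_algebraMap, LaurentSeries.coe_algebraMap, HahnSeries.ofPowerSeries_C]

/-- `z` is transcendental over `k((t))` -/
theorem inter_eval_eq_zero {k : Type} [Field k] (Q : Polynomial (KK k))
    (h : Q.eval₂ (c1 k) (z1 k) = 0) : Q = 0 := by
  have h1 := congrArg (interE k) h
  rw [Polynomial.eval₂_eq_sum_range, map_sum, map_zero] at h1
  ext j n
  have h2 := congrArg (fun x => (x.coeff n).coeff j) h1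
  simp only [map_mul, map_pow, inter_E_z1, HahnSeries.coeff_zero, Polynomial.coeff_zero,
    HahnSeries.coeff_sum, Polynomial.finsetSum_coeff] at h2
  have h3 : ∀ i, ((interE k (c1 k (Q.coeff i)) * HahnSeries.C Polynomial.X ^ i).coeff n).coeff j =
      if i = j then (Q.coeff i).coeff n else 0 := by
    intro i
    rw [← map_pow, mul_comm, HahnSeries.C_apply, HahnSeries.coeff_single_zero_mul, inter_coeff_E,
      mul_comm, Polynomial.coeff_C_mul_X_pow]
    by_cases hij : i = j
    · rw [if_pos hij, if_pos hij.symm]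
    · rw [if_neg hij, if_neg (Ne.symm hij)]
  simp only [h3] at h2
  rw [Finset.sum_ite_eq'] at h2
  rw [Polynomial.coeff_zero, HahnSeries.coeff_zero]
  by_cases hj : j ∈ Finset.range (Q.natDegree + 1)
  · rw [if_pos hj] at h2
    exact h2
  · rw [Finset.mem_range, not_lt] at hj
    rw [Polynomial.coeff_eq_zero_of_natDegree_lt (by omega), HahnSeries.coeff_zero]

theorem inter_tK_ne (k : Type) [Field k] : (HahnSeries.single (1 : ℤ) (1 : k) : KK k) ≠ 0 := by
  rw [Ne, HahnSeries.single_eq_zero_iff]
  exact one_ne_zero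

/-- the substitution `X ↦ c + t^a z` -/
theorem inter_α1_comp {k : Type} [Field k] (a : ℕ) (c : k) (Q : Polynomial (KK k)) :
    α1 k a c (Q.comp (Polynomial.C ((HahnSeries.single (1 : ℤ) (1 : k) : KK k) ^ a)⁻¹ *
      (Polynomial.X - Polynomial.C (HahnSeries.C c)))) = Q.eval₂ (c1 k) (z1 k) := by
  rw [α1, Polynomial.coe_eval₂RingHom, Polynomial.eval₂_comp]
  congr 1
  rw [Polynomial.eval₂_mul, Polynomial.eval₂_C, Polynomial.eval₂_sub, Polynomial.eval₂_X,
    Polynomial.eval₂_C, add_sub_cancel_left, ← inter_c1_single, ← map_pow (c1 k), ← mul_assoc,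
    ← map_mul (c1 k),
    inv_mul_cancel₀ (pow_ne_zero a (inter_tK_ne k)), map_one, one_mul]

theorem inter_comp_comp {k : Type} [Field k] (a : ℕ) (c : k) (P : Polynomial (KK k)) :
    (P.comp (Polynomial.C (HahnSeries.C c) +
      Polynomial.C ((HahnSeries.single (1 : ℤ) (1 : k) : KK k) ^ a) * Polynomial.X)).comp
      (Polynomial.C ((HahnSeries.single (1 : ℤ) (1 : k) : KK k) ^ a)⁻¹ *
      (Polynomial.X - Polynomial.C (HahnSeries.C c))) = P := by
  rw [Polynomial.comp_assoc]
  have : (Polynomial.C (HahnSeries.C c) +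
      Polynomial.C ((HahnSeries.single (1 : ℤ) (1 : k) : KK k) ^ a) * Polynomial.X).comp
      (Polynomial.C ((HahnSeries.single (1 : ℤ) (1 : k) : KK k) ^ a)⁻¹ *
      (Polynomial.X - Polynomial.C (HahnSeries.C c))) = Polynomial.X := by
    rw [Polynomial.add_comp, Polynomial.mul_comp, Polynomial.C_comp, Polynomial.C_comp,
      Polynomial.X_comp, ← mul_assoc, ← Polynomial.C_mul,
      mul_inv_cancel₀ (pow_ne_zero a (inter_tK_ne k)), Polynomial.C_1, one_mul, add_sub_cancel]
  rw [this, Polynomial.comp_X]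

theorem φ0_injective (k : Type) [Field k] (a : ℕ) (c : k) : Function.Injective (φ0 k a c) := by
  rw [injective_iff_map_eq_zero]
  intro P hP
  rw [φ0, RingHom.comp_apply] at hP
  have h1 : α1 k a c P = 0 := φ1_injective k (hP.trans (map_zero _).symm)
  set Q := P.comp (Polynomial.C (HahnSeries.C c) +
      Polynomial.C ((HahnSeries.single (1 : ℤ) (1 : k) : KK k) ^ a) * Polynomial.X) with hQ
  have h2 := inter_α1_comp a c Q
  rw [hQ, inter_comp_comp, h1, ← hQ] at h2
  have h3 := inter_eval_eq_zero Q h2.symm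
  have h4 := inter_comp_comp a c P
  rw [← hQ, h3, Polynomial.zero_comp] at h4
  exact h4.symm

theorem inter {k : Type} [Field k] (a : ℕ) (c : k) (r1 : R1 k) (r2 : R2 k)
    (h : φ1 k r1 = φ2 k r2) : ∃ q : Polynomial (KK k), φ0 k a c q = φ1 k r1 := by
  obtain ⟨m, x, hx⟩ := inter_surj1 r1
  obtain ⟨m', y, hy⟩ := inter_surj2 r2
  -- the identity in `k[z,1/z][[t]]`
  have h1 : a1 k x * (PowerSeries.X * PowerSeries.C (LaurentPolynomial.T (-1))) ^ m' =
      a2 k y * PowerSeries.X ^ m := by
    apply iA_injective k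
    rw [map_mul, map_mul, ← inter_φ1_algebraMap, ← inter_φ2_algebraMap, ← hx, ← hy, map_mul,
      map_mul, h, inter_φ1_algebraMap, inter_φ2_algebraMap]
    simp only [map_mul, map_pow, a1_X, a2_X, a2_C, Polynomial.toLaurent_X,
      LaurentPolynomial.invert_T]
    ring
  -- bounded degrees
  have h2 : ∀ i j : ℕ, m' < j → (PowerSeries.coeff i x).coeff j = 0 := by
    intro i j hj
    have h3 := congrArg (PowerSeries.coeff (i + m')) h1
    rw [mul_pow, ← map_pow, LaurentPolynomial.T_pow, mul_comm (PowerSeries.X ^ m'), ← mul_assoc,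
      PowerSeries.coeff_mul_X_pow, PowerSeries.coeff_mul_C, a1, PowerSeries.coeff_map] at h3
    have h4 := congrArg (fun f : LaurentPolynomial k => f.coeff ((j : ℤ) - m')) h3
    rw [inter_mulT_coeff, inter_toLaurent_coeff] at h4
    have h5 : (j : ℤ) - m' - (m' : ℤ) * (-1) = j := by ring
    rw [h5, if_pos (by positivity), Int.toNat_natCast] at h4
    rw [h4, PowerSeries.coeff_mul_X_pow']
    split_ifs
    · rw [a2, PowerSeries.coeff_map, RingHom.comp_apply]
      change (LaurentPolynomial.invert (Polynomial.toLaurent _)).coeff _ = 0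
      rw [LaurentPolynomial.invert_apply, inter_toLaurent_coeff, if_neg (by omega)]
    · rfl
  -- the polynomial over `k((t))`
  set α : ℕ → PowerSeries k := fun j => PowerSeries.mk fun i => (PowerSeries.coeff i x).coeff j
    with hα
  have h3 : x = ∑ j ∈ Finset.range (m' + 1), PowerSeries.map Polynomial.C (α j) *
      PowerSeries.C (Polynomial.X ^ j) := by
    ext i j
    rw [map_sum, Polynomial.finsetSum_coeff]
    simp only [PowerSeries.coeff_mul_C, PowerSeries.coeff_map, hα, PowerSeries.coeff_mk,
      Polynomial.coeff_C_mul_X_pow]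
    by_cases hj : j ∈ Finset.range (m' + 1)
    · rw [Finset.sum_ite_eq, if_pos hj]
    · rw [Finset.sum_ite_eq, if_neg hj]
      rw [Finset.mem_range, not_lt] at hj
      exact h2 i j (by omega)
  set tK : KK k := HahnSeries.single (1 : ℤ) (1 : k) with htK
  set Q : Polynomial (KK k) := ∑ j ∈ Finset.range (m' + 1),
    Polynomial.C ((tK ^ m)⁻¹ * algebraMap (PowerSeries k) (LaurentSeries k) (α j)) *
      Polynomial.X ^ j with hQ
  have h4 : Q.eval₂ (c1 k) (z1 k) = r1 := by
    have h5 : Q.eval₂ (c1 k) (z1 k) = c1 k ((tK ^ m)⁻¹) * algebraMap (Pk k) (R1 k) x := by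
      rw [h3, hQ, Polynomial.eval₂_finsetSum, map_sum, Finset.mul_sum]
      refine Finset.sum_congr rfl fun j _ => ?_
      rw [Polynomial.eval₂_mul, Polynomial.eval₂_C, Polynomial.eval₂_pow, Polynomial.eval₂_X,
        map_mul, map_mul, inter_c1_algebraMap, map_pow (PowerSeries.C), map_pow, z1, mul_assoc]
    rw [h5, ← hx, map_pow]
    have h6 : algebraMap (Pk k) (R1 k) PowerSeries.X = c1 k tK := (inter_c1_single k).symm
    rw [h6, ← map_pow (c1 k), mul_comm, mul_assoc, ← map_mul (c1 k),
      mul_inv_cancel₀ (pow_ne_zero m (inter_tK_ne k)), map_one, mul_one]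
  refine ⟨Q.comp (Polynomial.C (tK ^ a)⁻¹ * (Polynomial.X - Polynomial.C (HahnSeries.C c))), ?_⟩
  rw [φ0, RingHom.comp_apply, ← h4, ← inter_α1_comp a c Q]

end Pool.Agent.Helper54.FP
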